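import Pool.Agent.H83.G.Targets3

/-!
Board g_modules, module REC: the recursion.
-/

set_option autoImplicit false

namespace Pool.Agent.H90.G

open MeasureTheory Set Pool.Agent.H83.G
open scoped ENNReal NNReal RealInnerProductSpace

section

variable {m : ℕ}

theorem Rg_mono {κ κ' c : ℝ} (h : κ ≤ κ') (hc : 0 ≤ c) : Rg m κ c ⊆ Rg m κ' c := by
  rintro ζ ⟨h1, h2, h3, h4⟩
  have h5 : 0 ≤ ζ.1 ∨ ζ.1 < 0 := le_or_gt 0 ζ.1
  refine ⟨by linarith, by linarith, ?_, ?_⟩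
  · rcases h5 with h5 | h5
    · exact h3.trans (mul_le_mul_of_nonneg_right (by linarith) h5)
    · exfalso
      have h6 : 0 ≤ ‖ζ.2.1‖ := norm_nonneg _
      have h7 : 0 ≤ 1 + κ ∨ 1 + κ < 0 := le_or_gt 0 (1 + κ)
      rcases h7 with h7 | h7
      · nlinarith
      · nlinarith
  · exact h4.trans (mul_le_mul_of_nonneg_right (by linarith) hc)

theorem Bd_mono {L : ℕ} {κ κ' R g : ℝ} (h : κ ≤ κ') (hR : 0 ≤ R) (hB : Bd m L κ' R g) :
    Bd m L κ R g := by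
  intro A H G X hA hH hG hX hXH
  refine hB A H G X hA hH ⟨hG.1, fun ζ hζ => ?_, hG.2.2⟩ hX hXH
  exact Rg_mono h (inv_nonneg.2 hR) (hG.2.1 ζ hζ)

theorem ctr_norm_le (K : ℝ) (hK : 1 ≤ K) (k : Fin m → ℤ) (hk : k ∈ Ks m K⁻¹) :
    ‖ctr K⁻¹ k‖ ≤ 4 * m + 4 := by
  have hK0 : 0 < K := by linarith
  have hm1 : (0 : ℝ) < (m : ℝ) + 1 := by positivity
  have h1 : ∀ i, |(k i : ℝ)| ≤ 3 * ((m : ℝ) + 1) * K + 1 := by
    intro i
    have h2 := Fintype.mem_piFinset.1 hk i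
    rw [Finset.mem_Icc] at h2
    have h3 : 3 * ((m : ℝ) + 1) / K⁻¹ = 3 * ((m : ℝ) + 1) * K := by
      rw [div_inv_eq_mul]
    rw [h3] at h2
    have h4 : (⌈3 * ((m : ℝ) + 1) * K⌉ : ℝ) < 3 * ((m : ℝ) + 1) * K + 1 := Int.ceil_lt_add_one _
    have h5 : (k i : ℝ) ≤ (⌈3 * ((m : ℝ) + 1) * K⌉ : ℝ) := by exact_mod_cast h2.2
    have h6 : -(⌈3 * ((m : ℝ) + 1) * K⌉ : ℝ) ≤ (k i : ℝ) := by exact_mod_cast h2.1
    rw [abs_le]
    constructor <;> linarith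
  unfold ctr
  rw [norm_smul, EuclideanSpace.norm_eq]
  have h2 : ∑ i : Fin m, ‖(WithLp.toLp 2 (fun i => (k i : ℝ)) : E m) i‖ ^ 2 ≤
      m * (3 * ((m : ℝ) + 1) * K + 1) ^ 2 := by
    calc ∑ i : Fin m, ‖(WithLp.toLp 2 (fun i => (k i : ℝ)) : E m) i‖ ^ 2
        ≤ ∑ i : Fin m, (3 * ((m : ℝ) + 1) * K + 1) ^ 2 := by
          refine Finset.sum_le_sum fun i _ => ?_
          rw [Real.norm_eq_abs]
          exact pow_le_pow_left₀ (abs_nonneg _) (h1 i) 2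
      _ = _ := by
          rw [Finset.sum_const, Finset.card_univ, Fintype.card_fin, nsmul_eq_mul]
  have h3 : Real.sqrt (∑ i : Fin m, ‖(WithLp.toLp 2 (fun i => (k i : ℝ)) : E m) i‖ ^ 2) ≤
      (m + 1) * (3 * ((m : ℝ) + 1) * K + 1) := by
    refine Real.sqrt_le_iff.2 ⟨by positivity, h2.trans ?_⟩
    rw [mul_pow]
    refine mul_le_mul_of_nonneg_right ?_ (by positivity)
    nlinarith [(Nat.cast_nonneg m : (0 : ℝ) ≤ m)]
  have h4 : ‖(K⁻¹ / ((m : ℝ) + 1))‖ = K⁻¹ / ((m : ℝ) + 1) :=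
    Real.norm_of_nonneg (by positivity)
  rw [h4]
  calc K⁻¹ / ((m : ℝ) + 1) *
        Real.sqrt (∑ i : Fin m, ‖(WithLp.toLp 2 (fun i => (k i : ℝ)) : E m) i‖ ^ 2)
      ≤ K⁻¹ / ((m : ℝ) + 1) * ((m + 1) * (3 * ((m : ℝ) + 1) * K + 1)) :=
        mul_le_mul_of_nonneg_left h3 (by positivity)
    _ = 3 * ((m : ℝ) + 1) + K⁻¹ := by
        field_simp
    _ ≤ _ := by
        have : K⁻¹ ≤ 1 := inv_le_one_of_one_le₀ hK
        have := (Nat.cast_nonneg m : (0 : ℝ) ≤ m)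
        linarith

theorem TC_int {G : Z m → ℂ} (hG : TC G) : Integrable (fun ζ => ‖G ζ‖ ^ 2) := by
  have h1 : Continuous (fun ζ => ‖G ζ‖ ^ 2) := (hG.1.continuous.norm).pow 2
  refine h1.integrable_of_hasCompactSupport ?_
  have h2 := hG.2
  exact h2.comp_left (g := fun z : ℂ => ‖z‖ ^ 2) (by simp)

theorem beta_le {β : E m → ℂ} (hβ : IsPU β) (x : E m) : ‖β x‖ ≤ 1 := by
  obtain ⟨r, h0, h1, h2⟩ := hβ.2.2.1 x
  rw [h2, Complex.norm_real, Real.norm_of_nonneg h0]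
  exact h1

theorem int_cp_le {β : E m → ℂ} (hβ : IsPU β) {G : Z m → ℂ} (hG : TC G) (c : E m) (s : ℝ)
    (hcG : TC (fun ζ => cp β c s ζ * G ζ)) :
    ∫ ζ, ‖cp β c s ζ * G ζ‖ ^ 2 ≤ ∫ ζ, ‖G ζ‖ ^ 2 := by
  refine integral_mono (TC_int hcG) (TC_int hG) fun ζ => ?_
  simp only
  rw [norm_mul]
  have h1 : ‖cp β c s ζ‖ ≤ 1 := beta_le hβ _
  refine pow_le_pow_left₀ (by positivity) ?_ 2
  exact mul_le_of_le_one_left (norm_nonneg _) h1

/-- one cap of fixed radius -/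
noncomputable def Gk (β : E m → ℂ) (K : ℝ) (G : Z m → ℂ) (k : Fin m → ℤ) (ζ : Z m) : ℂ :=
  cp β (ctr K⁻¹ k) K⁻¹ ζ * G ζ

/-- the sum of the energies near the balls -/
theorem sum_Er {β : E m → ℂ} (hβ : IsPU β) {L : ℕ} {K δ CK CE κ R A : ℝ}
    (hCE : 0 < CE) (hκ1 : κ ≤ 1 / 2) (hR1 : 1 ≤ R) {G : Z m → ℂ} (hG : TC G)
    (hens : ∀ (R : ℝ) (G : Z m → ℂ), 1 ≤ R → TC G →
      (∀ ζ, G ζ ≠ 0 → ζ ∈ Rg m (1 / 2) R⁻¹) →
      ∑' j : Zi m, Er (m + 3) β R δ G ((R / ((m : ℝ) + 1)) • zc j) ≤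
        ENNReal.ofReal (CE * R ^ (lo m * δ) * ∫ ζ, ‖G ζ‖ ^ 2))
    (hcls : ∀ k ∈ Ks m K⁻¹, Cls L κ R (CK * A) (Gk β K G k))
    (k3 : Fin 3 → (Fin m → ℤ)) (hk3 : ∀ i, k3 i ∈ Ks m K⁻¹) (J : Finset (Zi m)) :
    ∑ l ∈ J, (∑ i, Er (m + 3) β R δ (Gk β K G (k3 i)) ((R / ((m : ℝ) + 1)) • zc l)).toReal ≤
      3 * (CE * R ^ (lo m * δ) * ∫ ζ, ‖G ζ‖ ^ 2) := by
  have hR0 : 0 < R := by linarith
  have hI0 : 0 ≤ ∫ ζ, ‖G ζ‖ ^ 2 := integral_nonneg fun ζ => by positivity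
  set Q : ℝ := CE * R ^ (lo m * δ) * ∫ ζ, ‖G ζ‖ ^ 2 with hQ
  have hQ0 : 0 ≤ Q := by positivity
  have h1 : ∀ i, ∑' j : Zi m, Er (m + 3) β R δ (Gk β K G (k3 i)) ((R / ((m : ℝ) + 1)) • zc j) ≤
      ENNReal.ofReal Q := by
    intro i
    have hc := hcls (k3 i) (hk3 i)
    have h2 := hens R (Gk β K G (k3 i)) hR1 hc.1 fun ζ hζ =>
      Rg_mono hκ1 (inv_nonneg.2 hR0.le) (hc.2.1 ζ hζ)
    refine h2.trans (ENNReal.ofReal_le_ofReal ?_)
    refine mul_le_mul_of_nonneg_left ?_ (by positivity)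
    exact int_cp_le hβ hG _ _ hc.1
  have h2 : ∑ l ∈ J, ∑ i, Er (m + 3) β R δ (Gk β K G (k3 i)) ((R / ((m : ℝ) + 1)) • zc l) ≤
      ENNReal.ofReal (3 * Q) := by
    rw [Finset.sum_comm]
    calc ∑ i, ∑ l ∈ J, Er (m + 3) β R δ (Gk β K G (k3 i)) ((R / ((m : ℝ) + 1)) • zc l)
        ≤ ∑ i : Fin 3, ENNReal.ofReal Q :=
          Finset.sum_le_sum fun i _ => (ENNReal.sum_le_tsum J).trans (h1 i)
      _ = ENNReal.ofReal (3 * Q) := by
          rw [Finset.sum_const, Finset.card_univ, Fintype.card_fin, nsmul_eq_mul,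
            ENNReal.ofReal_mul (p := 3) (by norm_num)]
          norm_num
  have h3 : ∀ l ∈ J, ∑ i, Er (m + 3) β R δ (Gk β K G (k3 i)) ((R / ((m : ℝ) + 1)) • zc l) ≠
      ⊤ := by
    intro l hl
    refine ne_top_of_le_ne_top ENNReal.ofReal_ne_top (le_trans ?_ h2)
    exact Finset.single_le_sum (f := fun l => ∑ i, Er (m + 3) β R δ (Gk β K G (k3 i))
      ((R / ((m : ℝ) + 1)) • zc l)) (fun _ _ => by positivity) hl
  rw [← ENNReal.toReal_sum h3]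
  refine ENNReal.toReal_le_of_le_ofReal (by positivity) h2

end

/-- the powers of `R` -/
theorem pow_sum (R a b δ ε₀ ε₁ g₂ : ℝ) (hR1 : 1 ≤ R) (hab : a ≤ b) (hb : 0 ≤ b) (hδ : 0 ≤ δ)
    (hε : 0 ≤ ε₀) (hg : 0 ≤ g₂) :
    R ^ (a * δ) * (R ^ (ε₁ + b * δ) * g₂ + R ^ (b * (δ + ε₀))) ≤
      R ^ (ε₁ + 2 * b * δ) * g₂ + R ^ (2 * b * (δ + ε₀)) := by
  have hR0 : 0 < R := by linarith
  have h1 : a * δ ≤ b * δ := mul_le_mul_of_nonneg_right hab hδ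
  have h2 : 0 ≤ b * ε₀ := by positivity
  rw [mul_add, ← mul_assoc, ← Real.rpow_add hR0, ← Real.rpow_add hR0]
  have h4 : R ^ (a * δ + (ε₁ + b * δ)) ≤ R ^ (ε₁ + 2 * b * δ) :=
    Real.rpow_le_rpow_of_exponent_le hR1 (by linarith)
  have h5 : R ^ (a * δ + b * (δ + ε₀)) ≤ R ^ (2 * b * (δ + ε₀)) :=
    Real.rpow_le_rpow_of_exponent_le hR1 (by linarith)
  have h6 := mul_le_mul_of_nonneg_right h4 hg
  linarith

/-- the constants -/
theorem fin_num (P nK CB Ck Ax R3 CE Rlo I0 S T CT C₂ : ℝ)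
    (hCT : CT = P * (nK * (CB * Ck * (3 * CE)))) (hCTC : CT ≤ C₂) (hC₂ : 0 ≤ C₂)
    (h : Rlo * S ≤ T) (h0 : 0 ≤ Rlo * S) (hA : 0 ≤ Ax * R3 * I0) :
    P * (nK * (CB * S * (Ck * Ax) * R3 * (3 * (CE * Rlo * I0)))) ≤ C₂ * T * (Ax * R3 * I0) := by
  have h1 : P * (nK * (CB * S * (Ck * Ax) * R3 * (3 * (CE * Rlo * I0)))) =
      CT * (Rlo * S) * (Ax * R3 * I0) := by
    rw [hCT]
    ring
  rw [h1]
  exact mul_le_mul_of_nonneg_right (mul_le_mul hCTC h h0 hC₂) hA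

/-- REC: the recursion -/
theorem pf_REC (hBAS : T_BAS) (hBRN : T_BRN) (hNAR : T_NAR) (hBRO : T_BRO) (hCPC : T_CPC)
    (hENS : T_ENS) (hPUX : T_PUX) (_hPUS : T_PUS) (_hCPS : T_CPS) (hWT3 : T_WT3)
    (_hENB : T_ENB) : T_REC := by
  classical
  intro m L hm hL
  obtain ⟨β, hβ⟩ := hPUX m
  obtain ⟨c, hc, hc1, hbrn⟩ := hBRN m β hβ
  obtain ⟨CN, hCN, hnar⟩ := hNAR m L β c (by omega) hβ hc
  obtain ⟨Cb, hCb, -, hbas⟩ := hBAS m L (by omega)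
  refine ⟨CN, hCN, ?_⟩
  intro K δ ε₀ ε₁ hK hδ hδ1 hε₀ hε₀1 hε₁
  have hK0 : 0 < K := by linarith
  have hx0 : 0 < xm m := by
    unfold xm
    have : (0 : ℝ) < m := by exact_mod_cast (by omega : 0 < m)
    positivity
  obtain ⟨CK, hCK, hcpc⟩ := hCPC m L β K hβ hK
  have hCK0 : 0 < CK := by linarith
  set cc : ℝ := c * K⁻¹ ^ m with hcc
  have hcc0 : 0 < cc := by positivity
  set b₀ : ℝ := cc / CK with hb₀
  have hb₀p : 0 < b₀ := by positivity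
  obtain ⟨CB, hCB, hbro⟩ := hBRO m L β K δ ε₀ ε₁ b₀ hm hL hβ hK hδ hδ1 hε₀ hε₀1 hε₁ hb₀p
  obtain ⟨CE, hCE, hens⟩ := hENS m (m + 3) β δ hβ hδ.le le_rfl
  have hwt5 : ∀ x : Z m, ∃ l : Zi m, ‖x - zc l‖ ≤ (m : ℝ) + 1 :=
    (hWT3 m (m + 3) le_rfl).choose_spec.2.2.2.2
  set nK : ℝ := ((Ks m K⁻¹).card : ℝ) ^ 3 with hnK
  have hnK0 : 0 ≤ nK := by positivity
  have hCB0 : 0 < CB := by linarith
  set CT : ℝ := cc ^ (-(2 + xm m)) * (nK * (CB * CK ^ xm m * (3 * CE))) with hCT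
  have hCT0 : 0 ≤ CT := by positivity
  have hlo : 0 < lo m := by
    unfold lo
    positivity
  have hlolb : lo m ≤ lb m := by
    unfold lo lb
    have : (0 : ℝ) ≤ m := Nat.cast_nonneg m
    nlinarith
  have hlb : 0 < lb m := by linarith
  refine ⟨CB + K ^ 2 + Cb + CT + 1, by nlinarith, ?_⟩
  set C₂ : ℝ := CB + K ^ 2 + Cb + CT + 1 with hC₂
  have hK2 : 0 < K ^ 2 := by positivity
  intro κ R g₁ g₂ hκ hκ1 hR hg₁ hg₂ hB1 hB2 A H G X hA hH hG hX hXH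
  have hR1 : 1 ≤ R := by linarith
  have hR0 : 0 < R := by linarith
  have hKR : K ^ 2 ≤ R := by linarith
  have hCBR : CB ≤ R := by linarith
  have hI0 : 0 ≤ ∫ ζ, ‖G ζ‖ ^ 2 := integral_nonneg fun ζ => by positivity
  have hC₂0 : 0 < C₂ := by linarith
  rcases le_or_gt H A with hHA | hAH
  · -- the trivial case
    have h1 := hbas κ R A H G X hκ (by linarith) hR1 hA hH hHA hG hX hXH
    refine h1.trans ?_
    have h2 : 1 ≤ R ^ (2 * lb m * (δ + ε₀)) := Real.one_le_rpow hR1 (by positivity)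
    have h3 : 1 ≤ R ^ (1 / 3 : ℝ) := Real.one_le_rpow hR1 (by norm_num)
    have h4 : Cb ≤ CN * K ^ (-(2 / 3) : ℝ) * g₁ + C₂ * R ^ (ε₁ + 2 * lb m * δ) * g₂ +
        C₂ * R ^ (2 * lb m * (δ + ε₀)) := by
      have h5 : 0 ≤ CN * K ^ (-(2 / 3) : ℝ) * g₁ := by positivity
      have h6 : 0 ≤ C₂ * R ^ (ε₁ + 2 * lb m * δ) * g₂ := by positivity
      have h7 : Cb ≤ C₂ * R ^ (2 * lb m * (δ + ε₀)) := by
        calc Cb ≤ C₂ := by linarith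
          _ = C₂ * 1 := by ring
          _ ≤ _ := mul_le_mul_of_nonneg_left h2 hC₂0.le
      linarith
    calc Cb * A ^ xm m * ∫ ζ, ‖G ζ‖ ^ 2
        = Cb * (A ^ xm m * 1 * ∫ ζ, ‖G ζ‖ ^ 2) := by ring
      _ ≤ (CN * K ^ (-(2 / 3) : ℝ) * g₁ + C₂ * R ^ (ε₁ + 2 * lb m * δ) * g₂ +
        C₂ * R ^ (2 * lb m * (δ + ε₀))) * (A ^ xm m * R ^ (1 / 3 : ℝ) * ∫ ζ, ‖G ζ‖ ^ 2) := by
          refine mul_le_mul h4 ?_ (by positivity) (hCb.le.trans h4)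
          refine mul_le_mul_of_nonneg_right ?_ hI0
          exact mul_le_mul_of_nonneg_left h3 (by positivity)
      _ = _ := by ring
  -- broad and narrow points
  set pn : Z m → Prop := fun z => ∃ k ∈ Ks m K⁻¹, c * H ≤ ‖TP β (ctr K⁻¹ k) K⁻¹ G z‖ with hpn
  set Xn : Finset (Z m) := X.filter pn with hXn
  set Xb : Finset (Z m) := X.filter (fun z => ¬ pn z) with hXb
  have hcard : (X.card : ℝ) = Xn.card + Xb.card := by
    rw [hXn, hXb]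
    exact_mod_cast (Finset.card_filter_add_card_filter_not pn).symm
  have hnarrow : (Xn.card : ℝ) * H ^ (2 + xm m) ≤
      CN * K ^ (-(2 / 3) : ℝ) * g₁ * A ^ xm m * R ^ (1 / 3 : ℝ) * ∫ ζ, ‖G ζ‖ ^ 2 := by
    refine hnar K κ R A H g₁ G Xn hK hκ (by linarith) hKR hA hH hg₁ hB1 hG ?_ ?_
    · intro z hz z' hz' hne
      exact hX z (Finset.mem_filter.1 hz).1 z' (Finset.mem_filter.1 hz').1 hne
    · intro z hz
      exact (Finset.mem_filter.1 hz).2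
  -- triples
  have hT : ∀ z ∈ Xb, ∃ k : Fin 3 → (Fin m → ℤ), (∀ i, k i ∈ Ks m K⁻¹) ∧
      (∀ i j, i ≠ j → 4 / K ≤ ‖ctr K⁻¹ (k i) - ctr K⁻¹ (k j)‖) ∧
      ∀ i, cc * H ≤ ‖TP β (ctr K⁻¹ (k i)) K⁻¹ G z‖ := by
    intro z hz
    obtain ⟨hzX, hzn⟩ := Finset.mem_filter.1 hz
    have hHz := hXH z hzX
    have hsupp : ∀ ζ, G ζ ≠ 0 → 1 / 4 ≤ ζ.1 ∧ ‖ζ.2.1‖ ≤ 3 / 2 * ζ.1 := by
      intro ζ hζ
      obtain ⟨h1, h2, h3, h4⟩ := hG.2.1 ζ hζ
      have h5 : 1 / 4 ≤ ζ.1 := by linarith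
      refine ⟨h5, h3.trans (mul_le_mul_of_nonneg_right (by linarith) (by linarith))⟩
    rcases hbrn K G z hK hG.1 hsupp with ⟨k, hk, hkz⟩ | ⟨k, hk1, hk2, hk3⟩
    · exact absurd ⟨k, hk, (mul_le_mul_of_nonneg_left hHz hc.le).trans hkz⟩ hzn
    · exact ⟨k, hk1, hk2, fun i => (mul_le_mul_of_nonneg_left hHz hcc0.le).trans (hk3 i)⟩
  choose! kk hkk1 hkk2 hkk3 using hT
  have hJ : ∀ z : Z m, ∃ l : Zi m, ‖z - (R / ((m : ℝ) + 1)) • zc l‖ ≤ R := by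
    intro z
    have hm1 : (0 : ℝ) < (m : ℝ) + 1 := by positivity
    obtain ⟨l, hl⟩ := hwt5 ((R / ((m : ℝ) + 1))⁻¹ • z)
    refine ⟨l, ?_⟩
    have h1 : z - (R / ((m : ℝ) + 1)) • zc l =
        (R / ((m : ℝ) + 1)) • ((R / ((m : ℝ) + 1))⁻¹ • z - zc l) := by
      rw [smul_sub, smul_smul, mul_inv_cancel₀ (by positivity), one_smul]
    rw [h1, norm_smul, Real.norm_of_nonneg (by positivity)]
    calc R / ((m : ℝ) + 1) * ‖(R / ((m : ℝ) + 1))⁻¹ • z - zc l‖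
        ≤ R / ((m : ℝ) + 1) * ((m : ℝ) + 1) := mul_le_mul_of_nonneg_left hl (by positivity)
      _ = R := by field_simp
  choose jj hjj using hJ
  have hcls : ∀ k ∈ Ks m K⁻¹, Cls L κ R (CK * A) (Gk β K G k) := by
    intro k hk
    exact hcpc κ R A G (ctr K⁻¹ k) hκ (by linarith) hR1 hA (ctr_norm_le K hK k hk) hG
  set PF : Finset (Fin 3 → (Fin m → ℤ)) := Fintype.piFinset fun _ => Ks m K⁻¹ with hPF
  set JF : Finset (Zi m) := Xb.image jj with hJF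
  set MM : ℝ := CB * (R ^ (ε₁ + lb m * δ) * g₂ + R ^ (lb m * (δ + ε₀))) * (CK * A) ^ xm m *
    R ^ (1 / 3 : ℝ) with hMM
  have hMM0 : 0 ≤ MM := by positivity
  have hB2' : Bd m L (κ + CB * R ^ (-δ)) (R ^ (1 - ε₀)) g₂ := by
    refine Bd_mono ?_ (by positivity) hB2
    have : CB * R ^ (-δ) ≤ C₂ * R ^ (-δ) :=
      mul_le_mul_of_nonneg_right (by linarith) (by positivity)
    linarith
  -- one triple and one ball
  have hone : ∀ k3 ∈ PF, ∀ l ∈ JF,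
      ((Xb.filter (fun z => (kk z, jj z) = (k3, l))).card : ℝ) * (cc * H) ^ (2 + xm m) ≤
      MM * (∑ i, Er (m + 3) β R δ (Gk β K G (k3 i)) ((R / ((m : ℝ) + 1)) • zc l)).toReal := by
    intro k3 hk3 l hl
    set Y : Finset (Z m) := Xb.filter (fun z => (kk z, jj z) = (k3, l)) with hY
    rcases Y.eq_empty_or_nonempty with hYe | ⟨z₁, hz₁⟩
    · rw [hYe, Finset.card_empty, Nat.cast_zero, zero_mul]
      positivity
    · obtain ⟨hz₁b, hz₁e⟩ := Finset.mem_filter.1 hz₁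
      rw [Prod.ext_iff] at hz₁e
      have hz₁k : kk z₁ = k3 := hz₁e.1
      have hKs : ∀ i, k3 i ∈ Ks m K⁻¹ := by
        intro i
        rw [← hz₁k]
        exact hkk1 z₁ hz₁b i
      refine hbro κ R (CK * A) (cc * H) g₂ (fun i => Gk β K G (k3 i))
        (fun i => ctr K⁻¹ (k3 i)) ((R / ((m : ℝ) + 1)) • zc l) Y hκ hκ1 hCBR (by positivity)
        (by positivity) ?_ hg₂ ?_ ?_ ?_ ?_ ?_ ?_ ?_ hB2'
      · rw [hb₀, div_mul_eq_mul_div, ← mul_assoc, mul_comm cc CK, mul_assoc,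
          mul_div_cancel_left₀ _ hCK0.ne']
        exact mul_le_mul_of_nonneg_left hAH.le hcc0.le
      · exact fun i => hcls (k3 i) (hKs i)
      · exact fun i => ctr_norm_le K hK (k3 i) (hKs i)
      · intro i ζ hζ
        have h1 : β ((K⁻¹)⁻¹ • (ζ.1⁻¹ • ζ.2.1 - ctr K⁻¹ (k3 i))) ≠ 0 := by
          intro h2
          apply hζ
          change cp β (ctr K⁻¹ (k3 i)) K⁻¹ ζ * G ζ = 0
          unfold cp
          rw [h2, zero_mul]
        have h2 : ‖(K⁻¹)⁻¹ • (ζ.1⁻¹ • ζ.2.1 - ctr K⁻¹ (k3 i))‖ < 1 := by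
          by_contra hcon
          push Not at hcon
          exact h1 (hβ.2.1 _ hcon)
        rw [norm_smul, inv_inv, Real.norm_of_nonneg hK0.le] at h2
        rw [le_div_iff₀ hK0, mul_comm]
        exact h2.le
      · intro i j hij
        have h1 := hkk2 z₁ hz₁b i j hij
        rw [hz₁k] at h1
        exact h1
      · intro z hz z' hz' hne
        exact hX z (Finset.mem_filter.1 (Finset.mem_filter.1 hz).1).1 z'
          (Finset.mem_filter.1 (Finset.mem_filter.1 hz').1).1 hne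
      · intro z hz
        obtain ⟨hzb, hze⟩ := Finset.mem_filter.1 hz
        rw [Prod.ext_iff] at hze
        have h1 : jj z = l := hze.2
        rw [← h1]
        exact hjj z
      · intro z hz i
        obtain ⟨hzb, hze⟩ := Finset.mem_filter.1 hz
        rw [Prod.ext_iff] at hze
        have h1 : kk z = k3 := hze.1
        have h2 := hkk3 z hzb i
        rw [h1] at h2
        exact h2
  -- the sum
  have hsumc : (Xb.card : ℝ) = ∑ k3 ∈ PF, ∑ l ∈ JF,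
      ((Xb.filter (fun z => (kk z, jj z) = (k3, l))).card : ℝ) := by
    have hmap : ∀ z ∈ Xb, (kk z, jj z) ∈ PF ×ˢ JF := by
      intro z hz
      rw [Finset.mem_product]
      refine ⟨?_, Finset.mem_image_of_mem _ hz⟩
      exact Fintype.mem_piFinset.2 fun i => hkk1 z hz i
    have h1 := Finset.card_eq_sum_card_fiberwise (f := fun z => (kk z, jj z)) hmap
    rw [Finset.sum_product] at h1
    exact_mod_cast h1
  have hPFc : (PF.card : ℝ) = nK := by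
    rw [hPF, Fintype.card_piFinset, Finset.prod_const, Finset.card_univ, Fintype.card_fin,
      Nat.cast_pow]
  have hbroad : (Xb.card : ℝ) * (cc * H) ^ (2 + xm m) ≤
      nK * (MM * (3 * (CE * R ^ (lo m * δ) * ∫ ζ, ‖G ζ‖ ^ 2))) := by
    calc (Xb.card : ℝ) * (cc * H) ^ (2 + xm m)
        = ∑ k3 ∈ PF, ∑ l ∈ JF, ((Xb.filter (fun z => (kk z, jj z) = (k3, l))).card : ℝ) *
            (cc * H) ^ (2 + xm m) := by
          rw [hsumc, Finset.sum_mul]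
          refine Finset.sum_congr rfl fun k3 _ => ?_
          rw [Finset.sum_mul]
      _ ≤ ∑ k3 ∈ PF, ∑ l ∈ JF, MM * (∑ i, Er (m + 3) β R δ (Gk β K G (k3 i))
            ((R / ((m : ℝ) + 1)) • zc l)).toReal :=
          Finset.sum_le_sum fun k3 hk3 => Finset.sum_le_sum fun l hl => hone k3 hk3 l hl
      _ ≤ ∑ k3 ∈ PF, MM * (3 * (CE * R ^ (lo m * δ) * ∫ ζ, ‖G ζ‖ ^ 2)) := by
          refine Finset.sum_le_sum fun k3 hk3 => ?_
          rw [← Finset.mul_sum]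
          refine mul_le_mul_of_nonneg_left ?_ hMM0
          exact sum_Er hβ hCE (by linarith) hR1 hG.1 hens hcls k3
            (fun i => Fintype.mem_piFinset.1 hk3 i) JF
      _ = _ := by
          rw [Finset.sum_const, nsmul_eq_mul, hPFc]
  -- the powers
  have hbroad2 : (Xb.card : ℝ) * H ^ (2 + xm m) ≤
      (C₂ * R ^ (ε₁ + 2 * lb m * δ) * g₂ + C₂ * R ^ (2 * lb m * (δ + ε₀))) *
        (A ^ xm m * R ^ (1 / 3 : ℝ) * ∫ ζ, ‖G ζ‖ ^ 2) := by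
    have h1 : (Xb.card : ℝ) * H ^ (2 + xm m) =
        cc ^ (-(2 + xm m)) * ((Xb.card : ℝ) * (cc * H) ^ (2 + xm m)) := by
      rw [Real.mul_rpow hcc0.le hH.le]
      have h2 : cc ^ (-(2 + xm m)) * cc ^ (2 + xm m) = 1 := by
        rw [← Real.rpow_add hcc0, neg_add_cancel, Real.rpow_zero]
      calc (Xb.card : ℝ) * H ^ (2 + xm m)
          = (cc ^ (-(2 + xm m)) * cc ^ (2 + xm m)) * ((Xb.card : ℝ) * H ^ (2 + xm m)) := by
            rw [h2, one_mul]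
        _ = _ := by ring
    rw [h1]
    refine (mul_le_mul_of_nonneg_left hbroad (by positivity)).trans ?_
    have h3 := pow_sum R (lo m) (lb m) δ ε₀ ε₁ g₂ hR1 hlolb hlb.le hδ.le hε₀.le (by linarith)
    rw [hMM, Real.mul_rpow hCK0.le hA.le]
    have h4 := fin_num (cc ^ (-(2 + xm m))) nK CB (CK ^ xm m) (A ^ xm m) (R ^ (1 / 3 : ℝ)) CE
      (R ^ (lo m * δ)) (∫ ζ, ‖G ζ‖ ^ 2) (R ^ (ε₁ + lb m * δ) * g₂ + R ^ (lb m * (δ + ε₀)))
      (R ^ (ε₁ + 2 * lb m * δ) * g₂ + R ^ (2 * lb m * (δ + ε₀))) CT C₂ hCT (by linarith)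
      hC₂0.le h3 (by positivity) (by positivity)
    refine h4.trans (le_of_eq ?_)
    ring
  calc (X.card : ℝ) * H ^ (2 + xm m)
      = (Xn.card : ℝ) * H ^ (2 + xm m) + (Xb.card : ℝ) * H ^ (2 + xm m) := by
        rw [hcard]
        ring
    _ ≤ (CN * K ^ (-(2 / 3) : ℝ) * g₁ * A ^ xm m * R ^ (1 / 3 : ℝ) * ∫ ζ, ‖G ζ‖ ^ 2) +
        (C₂ * R ^ (ε₁ + 2 * lb m * δ) * g₂ + C₂ * R ^ (2 * lb m * (δ + ε₀))) *
        (A ^ xm m * R ^ (1 / 3 : ℝ) * ∫ ζ, ‖G ζ‖ ^ 2) := add_le_add hnarrow hbroad2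
    _ = _ := by ring

end Pool.Agent.H90.G
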