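import Pool.Agent.H18.G.WM
import Pool.Agent.H39.G.LO

/-!
Board g_modules, module RLO: reverse local orthogonality with a loss.
-/

set_option autoImplicit false

namespace Pool.Agent.H90.G.RLO

open MeasureTheory Set Pool.Agent.H83.G
open scoped ENNReal NNReal RealInnerProductSpace

section

variable {m : ℕ}

/-! ### partition functions -/

theorem sum_beta_sq {β : E m → ℂ} (hβ : IsPU β) {s : ℝ} {x : E m}
    (hP : HasSum (fun k => β (s⁻¹ • (x - ctr s k))) 1) (I : Finset (Fin m → ℤ)) :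
    ∑ k ∈ I, ‖β (s⁻¹ • (x - ctr s k))‖ ^ 2 ≤ 1 := by
  have h1 : ∀ y : E m, 0 ≤ (β y).re ∧ ‖β y‖ ^ 2 ≤ (β y).re := by
    intro y
    obtain ⟨r, h0, h1, h2⟩ := hβ.2.2.1 y
    rw [h2, Complex.norm_real, Real.norm_of_nonneg h0, Complex.ofReal_re]
    exact ⟨h0, by nlinarith⟩
  have h2 := Complex.hasSum_re hP
  rw [Complex.one_re] at h2
  calc ∑ k ∈ I, ‖β (s⁻¹ • (x - ctr s k))‖ ^ 2
      ≤ ∑ k ∈ I, (β (s⁻¹ • (x - ctr s k))).re := Finset.sum_le_sum fun k _ => (h1 _).2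
    _ ≤ 1 := sum_le_hasSum I (fun k _ => (h1 _).1) h2

/-- orthogonality of the caps -/
theorem orth (hPLN : T_PLN) (hPUS : T_PUS) (hCPS : T_CPS) {β : E m → ℂ} (hβ : IsPU β) {σ : ℝ}
    (hσ : 0 < σ) {G : Z m → ℂ} (hG : TC G) (hs : ∀ ζ, G ζ ≠ 0 → 1 / 4 ≤ ζ.1)
    (I : Finset (Fin m → ℤ)) :
    ∑ k ∈ I, ∫⁻ z, ‖TP β (ctr σ k) σ G z‖ₑ ^ 2 ≤ ∫⁻ z, ‖TF G z‖ₑ ^ 2 := by
  have h1 : ∀ k, ∫⁻ z, ‖TP β (ctr σ k) σ G z‖ₑ ^ 2 =
      ∫⁻ ζ, ‖cp β (ctr σ k) σ ζ * G ζ‖ₑ ^ 2 := by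
    intro k
    have h2 := hPLN m _ (hCPS m β (ctr σ k) σ G hβ.1 hσ hG hs)
    unfold TP
    rw [h2.1, h2.2]
  have h3 := hPLN m G hG
  rw [h3.1, ← h3.2]
  simp only [h1]
  rw [← lintegral_finsetSum]
  · refine lintegral_mono fun ζ => ?_
    simp only [enorm_mul, mul_pow]
    rw [← Finset.sum_mul]
    refine mul_le_of_le_one_left (by positivity) ?_
    have h4 := sum_beta_sq hβ (((hPUS m).1 β σ hβ hσ).1 (ζ.1⁻¹ • ζ.2.1)) I
    have h5 : ∑ k ∈ I, ‖cp β (ctr σ k) σ ζ‖ₑ ^ 2 =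
        ENNReal.ofReal (∑ k ∈ I, ‖β (σ⁻¹ • (ζ.1⁻¹ • ζ.2.1 - ctr σ k))‖ ^ 2) := by
      rw [ENNReal.ofReal_sum_of_nonneg fun _ _ => by positivity]
      refine Finset.sum_congr rfl fun k _ => ?_
      rw [ENNReal.ofReal_pow (norm_nonneg _), ofReal_norm]
      rfl
    rw [h5]
    exact ENNReal.ofReal_le_one.2 h4
  · intro k _
    have h6 := (hCPS m β (ctr σ k) σ G hβ.1 hσ hG hs).1.continuous
    exact (h6.measurable.enorm).pow_const 2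

/-! ### the cutoff -/

/-- the box -/
noncomputable def bx (m n : ℕ) : Finset (Zi m) :=
  Finset.Icc (-(n : ℤ)) n ×ˢ ((Fintype.piFinset fun _ : Fin m => Finset.Icc (-(n : ℤ)) n) ×ˢ
    Finset.Icc (-(n : ℤ)) n)

theorem bx_card (m n : ℕ) : (bx m n).card = (2 * n + 1) ^ (m + 2) := by
  unfold bx
  have h1 : (Finset.Icc (-(n : ℤ)) n).card = 2 * n + 1 := by
    rw [Int.card_Icc]
    omega
  rw [Finset.card_product, Finset.card_product, Fintype.card_piFinset, Finset.prod_const,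
    Finset.card_univ, Fintype.card_fin, h1]
  ring

theorem bx_far {n : ℕ} {l : Zi m} (hl : l ∉ bx m n) : (n : ℝ) + 1 ≤ ‖zc l‖ := by
  have hint : ∀ a : ℤ, a ∉ Finset.Icc (-(n : ℤ)) n → (n : ℝ) + 1 ≤ |(a : ℝ)| := by
    intro a ha
    rw [Finset.mem_Icc, not_and_or] at ha
    rcases ha with ha | ha
    · have h1 : (a : ℤ) + 1 ≤ -(n : ℤ) := by omega
      have h2 : (a : ℝ) + 1 ≤ -(n : ℝ) := by exact_mod_cast h1
      rw [abs_of_nonpos (by linarith [(Nat.cast_nonneg n : (0 : ℝ) ≤ n)])]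
      linarith
    · have h1 : (n : ℤ) + 1 ≤ a := by omega
      have h2 : (n : ℝ) + 1 ≤ (a : ℝ) := by exact_mod_cast h1
      exact h2.trans (le_abs_self _)
  unfold bx at hl
  rw [Finset.mem_product, not_and_or, Finset.mem_product, not_and_or] at hl
  rw [Prod.norm_def, Prod.norm_def]
  rcases hl with hl | hl | hl
  · exact (hint _ hl).trans (le_max_left _ _)
  · rw [Fintype.mem_piFinset] at hl
    push Not at hl
    obtain ⟨i, hi⟩ := hl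
    refine (hint _ hi).trans (le_trans ?_ ((le_max_left _ _).trans (le_max_right _ _)))
    exact PiLp.norm_apply_le (WithLp.toLp 2 (fun i => (l.2.1 i : ℝ)) : E m) i
  · exact (hint _ hl).trans ((le_max_right _ _).trans (le_max_right _ _))

/-- the cutoff function -/
noncomputable def ka (ψ : Z m → ℝ) (n : ℕ) (u : Z m) : ℝ := ∑ j ∈ bx m n, ψ (u - zc j)

theorem ka_bounds {Ψ : Z m → ℂ} {ψ : Z m → ℝ} (hΨ : IsPsi Ψ ψ) (n : ℕ) (u : Z m) :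
    0 ≤ ka ψ n u ∧ ka ψ n u ≤ 1 :=
  ⟨Finset.sum_nonneg fun _ _ => hΨ.2.2.2.1 _,
    sum_le_hasSum _ (fun _ _ => hΨ.2.2.2.1 _) (hΨ.2.2.2.2 u)⟩

theorem psi_le (hSCH : T_SCH) {Ψ : Z m → ℂ} {ψ : Z m → ℝ} (hΨ : IsPsi Ψ ψ) (N : ℕ) :
    ∃ C : ℝ, 0 < C ∧ ∀ z, ψ z ≤ C * wt N z := by
  obtain ⟨C, hC, h⟩ := (hSCH m Ψ hΨ.1).2 N
  refine ⟨C, hC, fun z => ?_⟩
  have h1 := h z
  rw [← hΨ.2.2.1 z, Complex.norm_real, Real.norm_of_nonneg (hΨ.2.2.2.1 z)] at h1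
  exact h1

theorem tail_abs {α : Type} (F : Finset α) (f g : α → ℝ) (C : ℝ) (B : ℝ≥0∞) (hC : 0 ≤ C)
    (hf : ∀ l, 0 ≤ f l) (hfg : ∀ l, f l ≤ C * g l) (h : HasSum f 1)
    (hB : ∑' l : ((F : Set α)ᶜ : Set α), ENNReal.ofReal (g l) ≤ B) :
    ENNReal.ofReal (1 - ∑ l ∈ F, f l) ≤ ENNReal.ofReal C * B := by
  have h5 := h.summable.sum_add_tsum_compl (s := F)
  rw [h.tsum_eq] at h5
  have h6 : 1 - ∑ l ∈ F, f l = ∑' l : ((F : Set α)ᶜ : Set α), f l := by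
    linarith
  have h7 : Summable (fun l : ((F : Set α)ᶜ : Set α) => f l) := h.summable.subtype _
  rw [h6, ENNReal.ofReal_tsum_of_nonneg (fun _ => hf _) h7]
  refine le_trans ?_ (mul_le_mul' le_rfl hB)
  rw [← ENNReal.tsum_mul_left]
  refine ENNReal.tsum_le_tsum fun l => ?_
  rw [← ENNReal.ofReal_mul hC]
  exact ENNReal.ofReal_le_ofReal (hfg _)

/-- the cutoff function is close to `1` -/
theorem one_sub_ka (hSCH : T_SCH) (hWT3 : T_WT3) {Ψ : Z m → ℂ} {ψ : Z m → ℝ} (hΨ : IsPsi Ψ ψ)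
    (M : ℕ) : ∃ C : ℝ, 0 < C ∧ ∀ (n : ℕ) (u : Z m), 1 ≤ n →
      1 - ka ψ n u ≤ C * (1 + ‖u‖) ^ M * ((n : ℝ) ^ M)⁻¹ := by
  obtain ⟨C₁, hC₁, hψ⟩ := psi_le hSCH hΨ (M + (m + 3))
  obtain ⟨C₃, -, h3, -⟩ := hWT3 m (M + (m + 3)) (by omega)
  refine ⟨2 ^ M * (C₁ * C₃ + 1), by positivity, fun n u hn => ?_⟩
  have hn0 : (0 : ℝ) < n := by exact_mod_cast hn
  have hu0 : 0 ≤ ‖u‖ := norm_nonneg u
  rcases le_or_gt ‖u‖ ((n : ℝ) / 2) with hu | hu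
  · -- near
    have hS : ∀ l ∈ ((bx m n : Set (Zi m))ᶜ : Set (Zi m)), (n : ℝ) / 2 ≤ ‖u - zc l‖ := by
      intro l hl
      have h4 := bx_far (fun h => hl (Finset.mem_coe.2 h))
      have h5 : ‖zc l‖ ≤ ‖u‖ + ‖u - zc l‖ := by
        have := norm_sub_le u (u - zc l)
        rwa [sub_sub_cancel] at this
      linarith
    have h4 := h3 u ((n : ℝ) / 2) ((bx m n : Set (Zi m))ᶜ : Set (Zi m)) (by positivity) hS
    have h8 : ENNReal.ofReal (1 - ka ψ n u) ≤ ENNReal.ofReal (C₁ * (C₃ *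
        ((1 + (n : ℝ) / 2) ^ (m + 3) * ((1 + (n : ℝ) / 2) ^ (M + (m + 3)))⁻¹))) := by
      have h5 := tail_abs (bx m n) (fun l => ψ (u - zc l)) (fun l => wt (M + (m + 3)) (u - zc l))
        C₁ _ hC₁.le (fun l => hΨ.2.2.2.1 _) (fun l => hψ _) (hΨ.2.2.2.2 u) h4
      refine h5.trans (le_of_eq ?_)
      rw [ENNReal.ofReal_mul hC₁.le, ENNReal.ofReal_mul (p := (C₃ : ℝ)) C₃.2,
        ENNReal.ofReal_coe_nnreal]
    have h9 := (ENNReal.ofReal_le_ofReal_iff (by positivity)).1 h8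
    have h10 : (1 + (n : ℝ) / 2) ^ (m + 3) * ((1 + (n : ℝ) / 2) ^ (M + (m + 3)))⁻¹ =
        ((1 + (n : ℝ) / 2) ^ M)⁻¹ := by
      have h11 : 0 < (1 + (n : ℝ) / 2) ^ (m + 3) := by positivity
      have h12 : 0 < (1 + (n : ℝ) / 2) ^ M := by positivity
      rw [pow_add (1 + (n : ℝ) / 2) M (m + 3), mul_inv, mul_comm (((1 + (n : ℝ) / 2) ^ M)⁻¹),
        ← mul_assoc, mul_inv_cancel₀ h11.ne', one_mul]
    rw [h10] at h9
    have h11 : ((1 + (n : ℝ) / 2) ^ M)⁻¹ ≤ 2 ^ M * ((n : ℝ) ^ M)⁻¹ := by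
      have h12 : ((n : ℝ) / 2) ^ M ≤ (1 + (n : ℝ) / 2) ^ M :=
        pow_le_pow_left₀ (by positivity) (by linarith) M
      have h13 : ((1 + (n : ℝ) / 2) ^ M)⁻¹ ≤ (((n : ℝ) / 2) ^ M)⁻¹ :=
        inv_anti₀ (by positivity) h12
      refine h13.trans (le_of_eq ?_)
      rw [div_pow, inv_div, div_eq_mul_inv]
    have h12 : (1 : ℝ) ≤ (1 + ‖u‖) ^ M := one_le_pow₀ (by linarith)
    have h13 : 0 ≤ (C₁ * C₃ : ℝ) := by positivity
    calc 1 - ka ψ n u ≤ C₁ * (C₃ * ((1 + (n : ℝ) / 2) ^ M)⁻¹) := h9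
      _ = (C₁ * C₃) * ((1 + (n : ℝ) / 2) ^ M)⁻¹ := by ring
      _ ≤ (C₁ * C₃ + 1) * (2 ^ M * ((n : ℝ) ^ M)⁻¹) :=
          mul_le_mul (by linarith) h11 (by positivity) (by positivity)
      _ = 2 ^ M * (C₁ * C₃ + 1) * 1 * ((n : ℝ) ^ M)⁻¹ := by ring
      _ ≤ _ := by
          refine mul_le_mul_of_nonneg_right ?_ (by positivity)
          exact mul_le_mul_of_nonneg_left h12 (by positivity)
  · -- far
    have h1 := (ka_bounds hΨ n u).1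
    have h2 : 1 ≤ 2 * (1 + ‖u‖) / n := by
      rw [le_div_iff₀ hn0]
      linarith
    have h4 : (1 : ℝ) ≤ (2 * (1 + ‖u‖) / n) ^ M := one_le_pow₀ h2
    have h5 : (2 * (1 + ‖u‖) / n) ^ M = 2 ^ M * (1 + ‖u‖) ^ M * ((n : ℝ) ^ M)⁻¹ := by
      rw [div_pow, mul_pow, div_eq_mul_inv]
    rw [h5] at h4
    have h6 : 0 ≤ (C₁ * C₃ : ℝ) := by positivity
    calc 1 - ka ψ n u ≤ 1 := by linarith
      _ ≤ 2 ^ M * (1 + ‖u‖) ^ M * ((n : ℝ) ^ M)⁻¹ * 1 := by rw [mul_one]; exact h4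
      _ ≤ 2 ^ M * (1 + ‖u‖) ^ M * ((n : ℝ) ^ M)⁻¹ * (C₁ * C₃ + 1) :=
          mul_le_mul_of_nonneg_left (by linarith) (by positivity)
      _ = _ := by ring

/-- the part of `G` near the plank -/
theorem near_part (hMOD : T_MOD) {G Ψ : Z m → ℂ} (hG : TC G) (hΨ : TC Ψ) {η : E m} {s r : ℝ}
    (hs : 0 < s) (hr : 0 < r) (F : Finset (Zi m)) (x : Zi m → Z m) :
    ∃ G' : Z m → ℂ, TC G' ∧
      (∀ z, TF G' z = TF G z * ∑ j ∈ F, TF Ψ (r⁻¹ • Lo η s z - x j)) ∧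
      ∀ ζ, G' ζ ≠ 0 → ∃ ζ₁ ζ₂, G ζ₁ ≠ 0 ∧ Ψ ζ₂ ≠ 0 ∧ ζ = ζ₁ + r⁻¹ • Ld η s ζ₂ := by
  choose G' h1 h2 h3 using fun j : Zi m => hMOD m G Ψ η s r⁻¹ (x j) hG hΨ hs (inv_pos.2 hr)
  refine ⟨fun ζ => ∑ j ∈ F, G' j ζ, Pool.Agent.H39.G.TC_sum F G' fun j _ => h1 j, fun z => ?_,
    fun ζ hζ => ?_⟩
  · rw [Pool.Agent.H39.G.TF_sum F G' (fun j _ => h1 j), Finset.mul_sum]
    exact Finset.sum_congr rfl fun j _ => h2 j z
  · obtain ⟨j, -, hj⟩ := Finset.exists_ne_zero_of_sum_ne_zero hζ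
    exact h3 j ζ hj

theorem TC_sub {G G' : Z m → ℂ} (h : TC G) (h' : TC G') : TC (fun ζ => G ζ - G' ζ) :=
  ⟨h.1.sub h'.1, h.2.sub h'.2⟩

theorem TF_sub {G G' : Z m → ℂ} (h : TC G) (h' : TC G') (z : Z m) :
    TF (fun ζ => G ζ - G' ζ) z = TF G z - TF G' z := by
  unfold TF
  simp only [mul_sub]
  exact integral_sub (Pool.Agent.H39.G.int_TF h z) (Pool.Agent.H39.G.int_TF h' z)

theorem TP_sub (hCPS : T_CPS) {φ : E m → ℂ} {η : E m} {s : ℝ} (hφ : ContDiff ℝ (⊤ : ℕ∞) φ)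
    (hs : 0 < s) {G G' : Z m → ℂ} (h : TC G) (h' : TC G') (h1 : ∀ ζ, G ζ ≠ 0 → 1 / 4 ≤ ζ.1)
    (h1' : ∀ ζ, G' ζ ≠ 0 → 1 / 4 ≤ ζ.1) (z : Z m) :
    TP φ η s (fun ζ => G ζ - G' ζ) z = TP φ η s G z - TP φ η s G' z := by
  unfold TP
  rw [← TF_sub (hCPS m φ η s G hφ hs h h1) (hCPS m φ η s G' hφ hs h' h1')]
  congr 1
  funext ζ
  ring

theorem add_sq_le (a b : ℝ≥0∞) : (a + b) ^ 2 ≤ 4 * (a ^ 2 + b ^ 2) := by
  have h1 : ∀ x y : ℝ≥0∞, x ≤ y → (x + y) ^ 2 ≤ 4 * (x ^ 2 + y ^ 2) := by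
    intro x y hxy
    calc (x + y) ^ 2 ≤ (y + y) ^ 2 := by gcongr
      _ = 4 * y ^ 2 := by ring
      _ ≤ 4 * (x ^ 2 + y ^ 2) := by
          gcongr
          exact le_add_self
  rcases le_total a b with h | h
  · exact h1 a b h
  · rw [add_comm a b, add_comm (a ^ 2)]
    exact h1 b a h

theorem pl_meas (η : E m) (s r : ℝ) (z₀ : Z m) : MeasurableSet (pl η s r z₀) := by
  unfold pl
  have h1 : Continuous (fun z : Z m => ‖Lo η s (z - z₀)‖) :=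
    ((Pool.Agent.H18.G.WM.continuous_Lo η s).comp (continuous_id.sub continuous_const)).norm
  exact measurableSet_le h1.measurable measurable_const

theorem pl_shift (η : E m) (s r : ℝ) (z₀ t : Z m) (f : Z m → ℝ≥0∞) :
    ∫⁻ z in pl η s r z₀, f (z - t) = ∫⁻ z in pl η s r (z₀ - t), f z := by
  rw [← lintegral_indicator (pl_meas η s r z₀), ← lintegral_indicator (pl_meas η s r (z₀ - t)),
    ← lintegral_sub_right_eq_self (fun z => (pl η s r (z₀ - t)).indicator f z) t]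
  refine lintegral_congr fun z => ?_
  have h1 : z ∈ pl η s r z₀ ↔ z - t ∈ pl η s r (z₀ - t) := by
    unfold pl
    rw [mem_ofPred_eq, mem_ofPred_eq, sub_sub_sub_cancel_right]
  by_cases hz : z ∈ pl η s r z₀
  · rw [indicator_of_mem hz, indicator_of_mem (h1.1 hz)]
  · rw [indicator_of_notMem hz, indicator_of_notMem fun h => hz (h1.2 h)]

/-! ### the near part -/

/-- the energy of the near part -/
theorem near_le (hSCH : T_SCH) (hAVG : T_AVG) {Ψ : Z m → ℂ} {ψ : Z m → ℝ}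
    (hΨ : IsPsi Ψ ψ) : ∃ C : ℝ≥0, ∀ (G G' : Z m → ℂ) (η : E m) (s r : ℝ) (z₀ : Z m) (n : ℕ)
      (S : ℝ≥0∞), TC G → 0 < s → 0 < r →
      (∀ z, TF G' z = TF G z * ∑ j ∈ bx m n, TF Ψ (r⁻¹ • Lo η s z - (zc j + r⁻¹ • Lo η s z₀))) →
      (∀ z₁, ∫⁻ z in pl η s r z₁, ‖TF G z‖ₑ ^ 2 ≤ S) →
      ∫⁻ z, ‖TF G' z‖ₑ ^ 2 ≤ C * (bx m n).card * S := by
  obtain ⟨C₁, hC₁, hψ⟩ := psi_le hSCH hΨ (m + 3)
  obtain ⟨C₂, hC₂⟩ := hAVG m (m + 3) le_rfl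
  refine ⟨C₁.toNNReal * C₂, ?_⟩
  intro G G' η s r z₀ n S hG hs hr hG' hS
  have hGc := (hSCH m G hG).1
  set x : Zi m → Z m := fun j => zc j + r⁻¹ • Lo η s z₀ with hx
  have hΨψ : ∀ z, TF Ψ z = (ψ z : ℂ) := fun z => (hΨ.2.2.1 z).symm
  -- the cutoff
  have hcut : ∀ z, ‖∑ j ∈ bx m n, TF Ψ (r⁻¹ • Lo η s z - x j)‖ₑ ^ 2 ≤
      ∑ j ∈ bx m n, ENNReal.ofReal C₁ *
        ENNReal.ofReal (wt (m + 3) (r⁻¹ • Lo η s z - x j)) := by
    intro z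
    set u : Z m := r⁻¹ • Lo η s z - r⁻¹ • Lo η s z₀ with hu
    have h1 : ∀ j, r⁻¹ • Lo η s z - x j = u - zc j := by
      intro j
      rw [hx, hu]
      simp only
      abel
    have h2 : ∑ j ∈ bx m n, TF Ψ (r⁻¹ • Lo η s z - x j) = ((ka ψ n u : ℝ) : ℂ) := by
      unfold ka
      rw [Complex.ofReal_sum]
      refine Finset.sum_congr rfl fun j _ => ?_
      rw [hΨψ, h1]
    obtain ⟨h3, h4⟩ := ka_bounds hΨ n u
    rw [h2, ← ofReal_norm, Complex.norm_real, Real.norm_of_nonneg h3,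
      ← ENNReal.ofReal_pow h3]
    calc ENNReal.ofReal (ka ψ n u ^ 2) ≤ ENNReal.ofReal (ka ψ n u) :=
          ENNReal.ofReal_le_ofReal (by nlinarith)
      _ = ∑ j ∈ bx m n, ENNReal.ofReal (ψ (u - zc j)) := by
          unfold ka
          rw [ENNReal.ofReal_sum_of_nonneg fun _ _ => hΨ.2.2.2.1 _]
      _ ≤ _ := by
          refine Finset.sum_le_sum fun j _ => ?_
          rw [← ENNReal.ofReal_mul hC₁.le, h1]
          exact ENNReal.ofReal_le_ofReal (hψ _)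
  have hterm : ∀ j, ∫⁻ z, ‖TF G z‖ₑ ^ 2 * ENNReal.ofReal (wt (m + 3) (r⁻¹ • Lo η s z - x j)) ≤
      C₂ * S := by
    intro j
    have h1 := hC₂ (fun z => ‖TF G z‖ₑ ^ 2) η s r 1 (x j) S (hGc.measurable.enorm.pow_const 2)
      hs hr one_pos le_rfl hS
    simpa using h1
  have hwm : ∀ j, Measurable (fun z =>
      ‖TF G z‖ₑ ^ 2 * ENNReal.ofReal (wt (m + 3) (r⁻¹ • Lo η s z - x j))) := by
    intro j
    have h1 : Continuous (fun z : Z m => wt (m + 3) (r⁻¹ • Lo η s z - x j)) := by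
      have h2 := Pool.Agent.H18.G.WM.continuous_Lo η s
      unfold wt
      have h3 : ∀ z : Z m, (1 + ‖r⁻¹ • Lo η s z - x j‖) ^ (m + 3) ≠ 0 := fun z => by positivity
      fun_prop (disch := exact h3 _)
    exact (hGc.measurable.enorm.pow_const 2).mul h1.measurable.ennreal_ofReal
  calc ∫⁻ z, ‖TF G' z‖ₑ ^ 2
      ≤ ∫⁻ z, ∑ j ∈ bx m n, ENNReal.ofReal C₁ * (‖TF G z‖ₑ ^ 2 *
        ENNReal.ofReal (wt (m + 3) (r⁻¹ • Lo η s z - x j))) := by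
        refine lintegral_mono fun z => ?_
        simp only
        rw [hG' z, enorm_mul, mul_pow]
        refine (mul_le_mul' le_rfl (hcut z)).trans (le_of_eq ?_)
        rw [Finset.mul_sum]
        refine Finset.sum_congr rfl fun j _ => ?_
        ring
    _ = ∑ j ∈ bx m n, ENNReal.ofReal C₁ * ∫⁻ z, (‖TF G z‖ₑ ^ 2 *
        ENNReal.ofReal (wt (m + 3) (r⁻¹ • Lo η s z - x j))) := by
        rw [lintegral_finsetSum _ fun j _ => (hwm j).const_mul _]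
        refine Finset.sum_congr rfl fun j _ => ?_
        rw [lintegral_const_mul' _ _ ENNReal.ofReal_ne_top]
    _ ≤ ∑ j ∈ bx m n, ENNReal.ofReal C₁ * (C₂ * S) :=
        Finset.sum_le_sum fun j _ => mul_le_mul' le_rfl (hterm j)
    _ = _ := by
        rw [Finset.sum_const, nsmul_eq_mul]
        push_cast
        have : ((C₁.toNNReal : ℝ≥0) : ℝ≥0∞) = ENNReal.ofReal C₁ := rfl
        rw [this]
        ring

/-! ### the far part -/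

theorem TP_smul (c : ℂ) (β : E m → ℂ) (η : E m) (s : ℝ) (G : Z m → ℂ) (z : Z m) :
    TP (fun x => c * β x) η s G z = c * TP β η s G z := by
  unfold TP TF cp
  rw [← integral_const_mul]
  congr 1
  funext ζ
  ring

/-- the far part, one cap -/
theorem far_le (hSCH : T_SCH) (hWT2 : T_WT2) (hWT3 : T_WT3) (hKER : T_KER) (hLOA : T_LOA)
    (hLOB : T_LOB) (hPUB : T_PUB) {β : E m → ℂ} (hβ : IsPU β) {Ψ : Z m → ℂ} {ψ : Z m → ℝ}
    (hΨ : IsPsi Ψ ψ) (M : ℕ) (D : ℝ) (hD : 0 ≤ D) :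
    ∃ C : ℝ≥0, ∀ (G G'' : Z m → ℂ) (η η' : E m) (σ s r : ℝ) (z₀ : Z m) (n : ℕ) (S : ℝ≥0∞),
      TC G → TC G'' → (∀ ζ, G'' ζ ≠ 0 → 1 / 4 ≤ ζ.1 ∧ ζ.1 ≤ 8) → 0 < σ → 0 < s → 1 ≤ r →
      s ≤ D * r * σ → ‖η' - η‖ ≤ D * r * σ → 1 ≤ n →
      (∀ z, TF G'' z = TF G z * (1 - ((ka ψ n (r⁻¹ • Lo η s (z - z₀)) : ℝ) : ℂ))) →
      (∀ z₁, ∫⁻ z in pl η s r z₁, ‖TF G z‖ₑ ^ 2 ≤ S) →
      ∫⁻ z in pl η s r z₀, ‖TP β η' σ G'' z‖ₑ ^ 2 ≤
        C * ENNReal.ofReal (((n : ℝ) ^ M)⁻¹) * S := by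
  obtain ⟨Ca, hCa, hka⟩ := one_sub_ka hSCH hWT3 hΨ M
  obtain ⟨Cβ, hCβ, hφ⟩ := hPUB m (M + (m + 3)) β hβ
  obtain ⟨C0, hC0⟩ := hKER m (M + (m + 3))
  obtain ⟨C2, -, -, hC2⟩ := hWT2 m (m + 3) le_rfl
  have hCβ0 : 0 < Cβ := by linarith
  set B : ℝ := Cβ * (Ca * (2 + D) ^ M) with hB
  have hB0 : 0 ≤ B := by positivity
  refine ⟨(B.toNNReal * C0) ^ 2 * C2 * C2, ?_⟩
  intro G G'' η η' σ s r z₀ n S hG hG'' hsup hσ hs hr h1 h2 hn hGG hS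
  have hr0 : 0 < r := by linarith
  have hn1 : (1 : ℝ) ≤ n := by exact_mod_cast hn
  have hc := (hSCH m G hG).1
  set sh := Pool.Agent.H18.G.WM.sh η' σ with hsh
  have hshc : Continuous sh := Pool.Agent.H18.G.WM.continuous_sh η' σ
  set w : ℝ × E m → ℝ≥0∞ := fun u => ENNReal.ofReal (((1 + ‖u‖) ^ (m + 3))⁻¹) with hw
  have hwm : Measurable w := by
    rw [hw]
    fun_prop
  -- the kernel estimate
  have hTP : ∀ z, ‖TP β η' σ G'' z‖ₑ ≤ ENNReal.ofReal Cβ * (C0 * ∫⁻ u : ℝ × E m,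
      ENNReal.ofReal (((1 + ‖u‖) ^ (M + (m + 3)))⁻¹) * ‖TF G'' (z - sh u)‖ₑ) := by
    intro z
    have h3 := hC0 _ hφ η' σ G'' hσ hG'' hsup z
    rw [TP_smul, enorm_mul] at h3
    have h4 : ‖((Cβ⁻¹ : ℝ) : ℂ)‖ₑ = ENNReal.ofReal Cβ⁻¹ := by
      rw [← ofReal_norm, Complex.norm_real, Real.norm_of_nonneg (by positivity)]
    rw [h4] at h3
    calc ‖TP β η' σ G'' z‖ₑ
        = ENNReal.ofReal Cβ * (ENNReal.ofReal Cβ⁻¹ * ‖TP β η' σ G'' z‖ₑ) := by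
          rw [← mul_assoc, ← ENNReal.ofReal_mul hCβ0.le, mul_inv_cancel₀ hCβ0.ne',
            ENNReal.ofReal_one, one_mul]
      _ ≤ _ := mul_le_mul' le_rfl h3
  have hpt : ∀ z ∈ pl η s r z₀, ∀ u : ℝ × E m,
      ENNReal.ofReal (((1 + ‖u‖) ^ (M + (m + 3)))⁻¹) * ‖TF G'' (z - sh u)‖ₑ ≤
      ENNReal.ofReal (Ca * (2 + D) ^ M * ((n : ℝ) ^ M)⁻¹) * (w u * ‖TF G (z - sh u)‖ₑ) := by
    intro z hz u
    have hz' : ‖Lo η s (z - z₀)‖ ≤ r := hz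
    set v : Z m := r⁻¹ • Lo η s (z - sh u - z₀) with hv
    have h5 : v = r⁻¹ • Lo η s (z - z₀) - r⁻¹ • Lo η s (sh u) := by
      rw [hv, ← smul_sub, ← ((hLOA m).1 η s (z - z₀) (sh u)).2.1]
      congr 2
      abel
    have h6 : ‖r⁻¹ • Lo η s (z - z₀)‖ ≤ 1 := by
      rw [norm_smul, norm_inv, Real.norm_of_nonneg hr0.le, inv_mul_le_iff₀ hr0, mul_one]
      exact hz'
    have h7 : ‖r⁻¹ • Lo η s (sh u)‖ ≤ (1 + D) * ‖u‖ := by
      rw [norm_smul, norm_inv, Real.norm_of_nonneg hr0.le, inv_mul_le_iff₀ hr0]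
      have h8 := (hLOB m D hD).2.2.2 η η' s σ r (sh u) hs hσ hr h1 h2 rfl
      rw [hsh, Pool.Agent.H18.G.WM.Lo_sh η' hσ] at h8
      rw [hsh]
      linarith
    have h8 : 1 + ‖v‖ ≤ (2 + D) * (1 + ‖u‖) := by
      have h9 : ‖v‖ ≤ ‖r⁻¹ • Lo η s (z - z₀)‖ + ‖r⁻¹ • Lo η s (sh u)‖ := by
        rw [h5]
        exact norm_sub_le _ _
      have h10 := norm_nonneg u
      nlinarith
    have h9 := hka n v hn
    have h10 : (1 + ‖v‖) ^ M ≤ (2 + D) ^ M * (1 + ‖u‖) ^ M := by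
      rw [← mul_pow]
      exact pow_le_pow_left₀ (by positivity) h8 M
    have h11 : ‖(1 : ℂ) - ((ka ψ n v : ℝ) : ℂ)‖ₑ ≤
        ENNReal.ofReal (Ca * ((2 + D) ^ M * (1 + ‖u‖) ^ M) * ((n : ℝ) ^ M)⁻¹) := by
      have h12 : (1 : ℂ) - ((ka ψ n v : ℝ) : ℂ) = ((1 - ka ψ n v : ℝ) : ℂ) := by
        push_cast
        rfl
      rw [h12, ← ofReal_norm, Complex.norm_real,
        Real.norm_of_nonneg (by linarith [(ka_bounds hΨ n v).2])]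
      refine ENNReal.ofReal_le_ofReal (h9.trans ?_)
      refine mul_le_mul_of_nonneg_right ?_ (by positivity)
      exact mul_le_mul_of_nonneg_left h10 hCa.le
    rw [hGG, enorm_mul]
    calc ENNReal.ofReal (((1 + ‖u‖) ^ (M + (m + 3)))⁻¹) *
          (‖TF G (z - sh u)‖ₑ * ‖(1 : ℂ) - ((ka ψ n v : ℝ) : ℂ)‖ₑ)
        ≤ ENNReal.ofReal (((1 + ‖u‖) ^ (M + (m + 3)))⁻¹) * (‖TF G (z - sh u)‖ₑ *
          ENNReal.ofReal (Ca * ((2 + D) ^ M * (1 + ‖u‖) ^ M) * ((n : ℝ) ^ M)⁻¹)) :=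
          mul_le_mul' le_rfl (mul_le_mul' le_rfl h11)
      _ = (ENNReal.ofReal (((1 + ‖u‖) ^ (M + (m + 3)))⁻¹) *
          ENNReal.ofReal (Ca * ((2 + D) ^ M * (1 + ‖u‖) ^ M) * ((n : ℝ) ^ M)⁻¹)) *
          ‖TF G (z - sh u)‖ₑ := by ring
      _ = (ENNReal.ofReal (Ca * (2 + D) ^ M * ((n : ℝ) ^ M)⁻¹) * w u) *
          ‖TF G (z - sh u)‖ₑ := by
          congr 1
          rw [hw, ← ENNReal.ofReal_mul (by positivity), ← ENNReal.ofReal_mul (by positivity)]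
          congr 1
          have h13 : 0 < (1 + ‖u‖) ^ M := by positivity
          rw [pow_add (1 + ‖u‖) M (m + 3), mul_inv]
          calc ((1 + ‖u‖) ^ M)⁻¹ * ((1 + ‖u‖) ^ (m + 3))⁻¹ *
                (Ca * ((2 + D) ^ M * (1 + ‖u‖) ^ M) * ((n : ℝ) ^ M)⁻¹)
              = (((1 + ‖u‖) ^ M)⁻¹ * (1 + ‖u‖) ^ M) * (Ca * (2 + D) ^ M * ((n : ℝ) ^ M)⁻¹ *
                ((1 + ‖u‖) ^ (m + 3))⁻¹) := by ring
            _ = _ := by rw [inv_mul_cancel₀ h13.ne', one_mul]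
      _ = _ := by ring
  -- Cauchy-Schwarz
  have hcs : ∀ z ∈ pl η s r z₀, ‖TP β η' σ G'' z‖ₑ ^ 2 ≤
      (ENNReal.ofReal B * C0) ^ 2 * ENNReal.ofReal (((n : ℝ) ^ M)⁻¹) * C2 *
        ∫⁻ u, w u * ‖TF G (z - sh u)‖ₑ ^ 2 := by
    intro z hz
    have hm : Measurable fun u : ℝ × E m => ‖TF G (z - sh u)‖ₑ :=
      (hc.comp (continuous_const.sub hshc)).measurable.enorm
    have h3 : ‖TP β η' σ G'' z‖ₑ ≤ (ENNReal.ofReal B * C0) * ENNReal.ofReal (((n : ℝ) ^ M)⁻¹) *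
        ∫⁻ u, w u * ‖TF G (z - sh u)‖ₑ := by
      refine (hTP z).trans ?_
      calc ENNReal.ofReal Cβ * (C0 * ∫⁻ u : ℝ × E m,
            ENNReal.ofReal (((1 + ‖u‖) ^ (M + (m + 3)))⁻¹) * ‖TF G'' (z - sh u)‖ₑ)
          ≤ ENNReal.ofReal Cβ * (C0 * ∫⁻ u : ℝ × E m,
            ENNReal.ofReal (Ca * (2 + D) ^ M * ((n : ℝ) ^ M)⁻¹) *
              (w u * ‖TF G (z - sh u)‖ₑ)) := by
            refine mul_le_mul' le_rfl (mul_le_mul' le_rfl ?_)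
            exact lintegral_mono fun u => hpt z hz u
        _ = _ := by
            rw [lintegral_const_mul' _ _ ENNReal.ofReal_ne_top, hB, ENNReal.ofReal_mul hCβ0.le,
              ENNReal.ofReal_mul (p := Ca * (2 + D) ^ M) (by positivity)]
            ring
    have h4 := pow_le_pow_left' h3 2
    refine h4.trans ?_
    rw [mul_pow, mul_pow]
    have h5 : ENNReal.ofReal (((n : ℝ) ^ M)⁻¹) ^ 2 ≤ ENNReal.ofReal (((n : ℝ) ^ M)⁻¹) := by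
      rw [sq]
      refine mul_le_of_le_one_right (by positivity) ?_
      rw [ENNReal.ofReal_le_one]
      exact inv_le_one_of_one_le₀ (one_le_pow₀ hn1)
    have h6 := (Pool.Agent.H18.G.WM.cs volume hwm hm).trans (mul_le_mul' hC2 le_rfl)
    calc (ENNReal.ofReal B * C0) ^ 2 * ENNReal.ofReal (((n : ℝ) ^ M)⁻¹) ^ 2 *
          (∫⁻ u, w u * ‖TF G (z - sh u)‖ₑ) ^ 2
        ≤ (ENNReal.ofReal B * C0) ^ 2 * ENNReal.ofReal (((n : ℝ) ^ M)⁻¹) *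
          (C2 * ∫⁻ u, w u * ‖TF G (z - sh u)‖ₑ ^ 2) :=
          mul_le_mul' (mul_le_mul' le_rfl h5) h6
      _ = _ := by ring
  -- the integral
  have hmz : Measurable (Function.uncurry fun (z : Z m) (u : ℝ × E m) =>
      w u * ‖TF G (z - sh u)‖ₑ ^ 2) := by
    have h5 : Continuous fun q : Z m × (ℝ × E m) => TF G (q.1 - sh q.2) :=
      hc.comp (continuous_fst.sub (hshc.comp continuous_snd))
    exact (hwm.comp measurable_snd).mul (h5.measurable.enorm.pow_const 2)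
  calc ∫⁻ z in pl η s r z₀, ‖TP β η' σ G'' z‖ₑ ^ 2
      ≤ ∫⁻ z in pl η s r z₀, (ENNReal.ofReal B * C0) ^ 2 *
        ENNReal.ofReal (((n : ℝ) ^ M)⁻¹) * C2 * ∫⁻ u, w u * ‖TF G (z - sh u)‖ₑ ^ 2 :=
        setLIntegral_mono' (pl_meas η s r z₀) hcs
    _ = (ENNReal.ofReal B * C0) ^ 2 * ENNReal.ofReal (((n : ℝ) ^ M)⁻¹) * C2 *
        ∫⁻ z in pl η s r z₀, ∫⁻ u, w u * ‖TF G (z - sh u)‖ₑ ^ 2 :=
        lintegral_const_mul' _ _ (by finiteness)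
    _ = (ENNReal.ofReal B * C0) ^ 2 * ENNReal.ofReal (((n : ℝ) ^ M)⁻¹) * C2 *
        ∫⁻ u, ∫⁻ z in pl η s r z₀, w u * ‖TF G (z - sh u)‖ₑ ^ 2 := by
        rw [lintegral_lintegral_swap hmz.aemeasurable]
    _ ≤ (ENNReal.ofReal B * C0) ^ 2 * ENNReal.ofReal (((n : ℝ) ^ M)⁻¹) * C2 *
        ∫⁻ u, w u * S := by
        refine mul_le_mul' le_rfl (lintegral_mono fun u => ?_)
        simp only
        rw [lintegral_const_mul' _ _ ENNReal.ofReal_ne_top]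
        refine mul_le_mul' le_rfl ?_
        rw [pl_shift η s r z₀ (sh u) (fun z => ‖TF G z‖ₑ ^ 2)]
        exact hS _
    _ ≤ (ENNReal.ofReal B * C0) ^ 2 * ENNReal.ofReal (((n : ℝ) ^ M)⁻¹) * C2 * (C2 * S) := by
        refine mul_le_mul' le_rfl ?_
        rw [lintegral_mul_const _ hwm]
        exact mul_le_mul' hC2 le_rfl
    _ = _ := by
        push_cast
        have : ((B.toNNReal : ℝ≥0) : ℝ≥0∞) = ENNReal.ofReal B := rfl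
        rw [this]
        ring

end

/-- RLO: reverse local orthogonality with a loss -/
theorem pf_RLO (hLOA : T_LOA) (hLOB : T_LOB) (hMOD : T_MOD) (hPLN : T_PLN) (hPSX : T_PSX)
    (hKER : T_KER) (hPUB : T_PUB) (hPUS : T_PUS) (_hWT1 : T_WT1) (hWT2 : T_WT2)
    (hWT3 : T_WT3) (hAVG : T_AVG) (hSCH : T_SCH) (hCPS : T_CPS) : T_RLO := by
  intro m N' D β hD hβ
  obtain ⟨Ψ, ψ, hΨ⟩ := hPSX m
  obtain ⟨C₁, hC₁⟩ := near_le hSCH hAVG hΨ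
  obtain ⟨C₂, hC₂⟩ := far_le hSCH hWT2 hWT3 hKER hLOA hLOB hPUB hβ hΨ N' D (by linarith)
  refine ⟨4 * (C₁ * 5 ^ (m + 2) + C₂), ?_⟩
  intro lam σ s r η z₀ G I S hlam hσ hs hr h1 h2 hG hsup hS
  have hr0 : 0 < r := by linarith
  have hlam0 : 0 < lam := by linarith
  set n : ℕ := ⌈lam⌉₊ with hn
  have hn1 : lam ≤ n := Nat.le_ceil lam
  have hn2 : (n : ℝ) < lam + 1 := Nat.ceil_lt_add_one hlam0.le
  have hn3 : 1 ≤ n := by
    have : (1 : ℝ) ≤ n := by linarith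
    exact_mod_cast this
  obtain ⟨G', hG', hTG', hsG'⟩ := near_part hMOD hG hΨ.1 hs hr0 (bx m n)
    (fun j => zc j + r⁻¹ • Lo η s z₀)
  have hG'' : TC (fun ζ => G ζ - G' ζ) := TC_sub hG hG'
  have hsup' : ∀ ζ, G' ζ ≠ 0 → 1 / 4 ≤ ζ.1 ∧ ζ.1 ≤ 8 := by
    intro ζ hζ
    obtain ⟨ζ₁, ζ₂, h3, h4, h5⟩ := hsG' ζ hζ
    have h6 := hsup ζ₁ h3
    have h7 : |ζ₂.1| ≤ 1 / 1000 := by
      refine le_trans ?_ (hΨ.2.1 ζ₂ h4)
      rw [← Real.norm_eq_abs]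
      exact norm_fst_le ζ₂
    have h8 : ζ.1 = ζ₁.1 + r⁻¹ * ζ₂.1 := by
      rw [h5]
      rfl
    have h9 : |r⁻¹ * ζ₂.1| ≤ 1 / 1000 := by
      rw [abs_mul, abs_of_pos (inv_pos.2 hr0)]
      have : r⁻¹ ≤ 1 := inv_le_one_of_one_le₀ hr
      have h10 : 0 ≤ |ζ₂.1| := abs_nonneg _
      nlinarith
    rw [abs_le] at h9
    rw [h8]
    constructor <;> linarith [h9.1, h9.2, h6.1, h6.2]
  have hsup'' : ∀ ζ, G ζ - G' ζ ≠ 0 → 1 / 4 ≤ ζ.1 ∧ ζ.1 ≤ 8 := by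
    intro ζ hζ
    by_cases h3 : G ζ = 0
    · refine hsup' ζ fun h4 => hζ ?_
      rw [h3, h4, sub_zero]
    · have := hsup ζ h3
      constructor <;> linarith [this.1, this.2]
  have hTG'' : ∀ z, TF (fun ζ => G ζ - G' ζ) z =
      TF G z * (1 - ((ka ψ n (r⁻¹ • Lo η s (z - z₀)) : ℝ) : ℂ)) := by
    intro z
    rw [TF_sub hG hG', hTG']
    have h3 : ∑ j ∈ bx m n, TF Ψ (r⁻¹ • Lo η s z - (zc j + r⁻¹ • Lo η s z₀)) =
        ((ka ψ n (r⁻¹ • Lo η s (z - z₀)) : ℝ) : ℂ) := by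
      unfold ka
      rw [Complex.ofReal_sum]
      refine Finset.sum_congr rfl fun j _ => ?_
      rw [hΨ.2.2.1]
      congr 1
      rw [((hLOA m).1 η s z z₀).2.1, smul_sub]
      abel
    rw [h3]
    ring
  -- the near part
  have hnear : ∑ k ∈ I, ∫⁻ z in pl η s r z₀, ‖TP β (ctr σ k) σ G' z‖ₑ ^ 2 ≤
      C₁ * (bx m n).card * S := by
    calc ∑ k ∈ I, ∫⁻ z in pl η s r z₀, ‖TP β (ctr σ k) σ G' z‖ₑ ^ 2
        ≤ ∑ k ∈ I, ∫⁻ z, ‖TP β (ctr σ k) σ G' z‖ₑ ^ 2 :=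
          Finset.sum_le_sum fun k _ => lintegral_mono' Measure.restrict_le_self le_rfl
      _ ≤ ∫⁻ z, ‖TF G' z‖ₑ ^ 2 :=
          orth hPLN hPUS hCPS hβ hσ hG' (fun ζ hζ => (hsup' ζ hζ).1) I
      _ ≤ _ := hC₁ G G' η s r z₀ n S hG hs hr0 hTG' hS
  -- the far part
  have hfar : ∀ k ∈ I, ∫⁻ z in pl η s r z₀,
      ‖TP β (ctr σ k) σ (fun ζ => G ζ - G' ζ) z‖ₑ ^ 2 ≤
      C₂ * ENNReal.ofReal (((n : ℝ) ^ N')⁻¹) * S := fun k hk =>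
    hC₂ G _ η (ctr σ k) σ s r z₀ n S hG hG'' hsup'' hσ hs hr h1 (h2 k hk) hn3 hTG'' hS
  have hsplit : ∀ k z, ‖TP β (ctr σ k) σ G z‖ₑ ^ 2 ≤ 4 * (‖TP β (ctr σ k) σ G' z‖ₑ ^ 2 +
      ‖TP β (ctr σ k) σ (fun ζ => G ζ - G' ζ) z‖ₑ ^ 2) := by
    intro k z
    have h3 := TP_sub hCPS (η := ctr σ k) hβ.1 hσ hG hG'
      (fun ζ hζ => by linarith [(hsup ζ hζ).1]) (fun ζ hζ => (hsup' ζ hζ).1) z
    have h4 : TP β (ctr σ k) σ G z = TP β (ctr σ k) σ G' z +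
        TP β (ctr σ k) σ (fun ζ => G ζ - G' ζ) z := by
      rw [h3]
      ring
    rw [h4]
    exact (pow_le_pow_left' (enorm_add_le _ _) 2).trans (add_sq_le _ _)
  have hmeas : ∀ k, Measurable (fun z => ‖TP β (ctr σ k) σ G' z‖ₑ ^ 2) := by
    intro k
    have h3 := hCPS m β (ctr σ k) σ G' hβ.1 hσ hG' (fun ζ hζ => (hsup' ζ hζ).1)
    exact ((hSCH m _ h3).1.measurable.enorm).pow_const 2
  have hcard : ((bx m n).card : ℝ≥0∞) ≤ ENNReal.ofReal (5 ^ (m + 2) * lam ^ (m + 2)) := by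
    rw [bx_card, ← ENNReal.ofReal_natCast]
    refine ENNReal.ofReal_le_ofReal ?_
    push_cast
    rw [← mul_pow]
    exact pow_le_pow_left₀ (by positivity) (by linarith) _
  have hpow : ENNReal.ofReal (((n : ℝ) ^ N')⁻¹) ≤ ENNReal.ofReal ((lam ^ N')⁻¹) := by
    refine ENNReal.ofReal_le_ofReal (inv_anti₀ (by positivity) ?_)
    exact pow_le_pow_left₀ hlam0.le hn1 N'
  calc ∑ k ∈ I, ∫⁻ z in pl η s r z₀, ‖TP β (ctr σ k) σ G z‖ₑ ^ 2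
      ≤ ∑ k ∈ I, 4 * ((∫⁻ z in pl η s r z₀, ‖TP β (ctr σ k) σ G' z‖ₑ ^ 2) +
        ∫⁻ z in pl η s r z₀, ‖TP β (ctr σ k) σ (fun ζ => G ζ - G' ζ) z‖ₑ ^ 2) := by
        refine Finset.sum_le_sum fun k _ => ?_
        rw [← lintegral_add_left (hmeas k), ← lintegral_const_mul' _ _ (by finiteness)]
        exact lintegral_mono fun z => hsplit k z
    _ = 4 * ((∑ k ∈ I, ∫⁻ z in pl η s r z₀, ‖TP β (ctr σ k) σ G' z‖ₑ ^ 2) +
        ∑ k ∈ I, ∫⁻ z in pl η s r z₀,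
          ‖TP β (ctr σ k) σ (fun ζ => G ζ - G' ζ) z‖ₑ ^ 2) := by
        rw [← Finset.mul_sum, Finset.sum_add_distrib]
    _ ≤ 4 * (C₁ * (bx m n).card * S +
        ∑ k ∈ I, C₂ * ENNReal.ofReal (((n : ℝ) ^ N')⁻¹) * S) :=
        mul_le_mul' le_rfl (add_le_add hnear (Finset.sum_le_sum hfar))
    _ = 4 * (C₁ * (bx m n).card + C₂ * (I.card * ENNReal.ofReal (((n : ℝ) ^ N')⁻¹))) * S := by
        rw [Finset.sum_const, nsmul_eq_mul]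
        ring
    _ ≤ 4 * (C₁ * ENNReal.ofReal (5 ^ (m + 2) * lam ^ (m + 2)) +
        C₂ * (I.card * ENNReal.ofReal ((lam ^ N')⁻¹))) * S := by
        refine mul_le_mul' (mul_le_mul' le_rfl (add_le_add ?_ ?_)) le_rfl
        · exact mul_le_mul' le_rfl hcard
        · exact mul_le_mul' le_rfl (mul_le_mul' le_rfl hpow)
    _ ≤ 4 * ((C₁ * 5 ^ (m + 2) + C₂) *
        ENNReal.ofReal (lam ^ (m + 2) + I.card * (lam ^ N')⁻¹)) * S := by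
        refine mul_le_mul' (mul_le_mul' le_rfl ?_) le_rfl
        rw [ENNReal.ofReal_mul (p := 5 ^ (m + 2)) (by positivity),
          ENNReal.ofReal_add (by positivity) (by positivity),
          ENNReal.ofReal_mul (p := (I.card : ℝ)) (by positivity), ENNReal.ofReal_natCast,
          ENNReal.ofReal_pow (p := 5) (by norm_num), ENNReal.ofReal_ofNat]
        set a : ℝ≥0∞ := ENNReal.ofReal (lam ^ (m + 2))
        set b : ℝ≥0∞ := (I.card : ℝ≥0∞) * ENNReal.ofReal ((lam ^ N')⁻¹)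
        calc (C₁ : ℝ≥0∞) * (5 ^ (m + 2) * a) + C₂ * b
            ≤ (C₁ * 5 ^ (m + 2) * a + C₂ * b) + (C₂ * a + C₁ * 5 ^ (m + 2) * b) := by
              rw [mul_assoc]
              exact le_self_add
          _ = _ := by ring
    _ = _ := by
        push_cast
        ring

end Pool.Agent.H90.G.RLO
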